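import Pool.Agent.helper48.TH.Spec

/-!
# Row tha:VSA (third prover), project TH (MP_f42afa_pr): adaptive sets and rectangles
-/

set_option autoImplicit false

namespace TP.TW

open DP MeasureTheory Finset

private theorem VSA_prob : IsProbabilityMeasure P1 := by
  unfold P1
  infer_instance

private theorem VSA_nonneg (F : Set (V → Bool)) : 0 ≤ Pr F := measureReal_nonneg

private theorem VSA_mono {F G : Set (V → Bool)} (h : F ⊆ G) : Pr F ≤ Pr G := by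
  have := VSA_prob
  exact measureReal_mono h

private theorem VSA_le_one (F : Set (V → Bool)) : Pr F ≤ 1 := by
  have := VSA_prob
  exact measureReal_le_one

private theorem VSA_biUnion {κ : Type} (s : Finset κ) (F : κ → Set (V → Bool)) (G : Set (V → Bool))
    (h : ∀ β ∈ G, ∃ i ∈ s, β ∈ F i) : Pr G ≤ ∑ i ∈ s, Pr (F i) := by
  have := VSA_prob
  refine (VSA_mono (G := ⋃ i ∈ s, F i) ?_).trans (measureReal_biUnion_finset_le s F)
  intro β hβ
  obtain ⟨i, hi, h'⟩ := h β hβ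
  exact Set.mem_iUnion₂.2 ⟨i, hi, h'⟩

/-- The shifted coins. -/
private def VSA_sh (τ : ℤ × ℤ) (β : V → Bool) : V → Bool := fun v => β (v.1 + τ.1, v.2 + τ.2)

/-- The difference. -/
private def VSA_dv (z : V) (τ : ℤ × ℤ) : V := (z.1 - τ.1, z.2 - τ.2)

private theorem VSA_dv_inj (z : V) : Function.Injective (VSA_dv z) := by
  rintro ⟨x, y⟩ ⟨x', y'⟩ h
  have h1 := congrArg Prod.fst h
  have h2 := congrArg Prod.snd h
  simp only [VSA_dv] at h1 h2
  rw [Prod.mk.injEq]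
  constructor <;> omega

/-- The event of the crossing depends on finitely many coins. -/
private theorem VSA_CD (o k : Bool) (A Ω : Finset V) (B : (V → Bool) → Finset V) (hT : Two A Ω B) (a b d e : ℤ) :
    CD {β | crs o (col β) k (til (A ∪ B β)) a b d e} (A ∪ rf a b d e) := by
  intro β β' h
  have h1 : B β = B β' := hT.2.2.2 β β' fun v hv => h v (Finset.mem_union_left _ hv)
  have h2 : ∀ v ∈ rect a b d e, col β v = col β' v := by
    intro v hv
    refine h (br v) (Finset.mem_union_right _ ?_)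
    unfold rf
    refine Finset.mem_image.2 ⟨v, ?_, rfl⟩
    exact Finset.mem_product.2 ⟨Finset.mem_Icc.2 ⟨hv.1, hv.2.1⟩, Finset.mem_Icc.2 ⟨hv.2.2.1, hv.2.2.2⟩⟩
  have h3 : ∀ S : Set V, crs o (col β) k S a b d e ↔ crs o (col β') k S a b d e := by
    intro S
    unfold crs
    refine exists_congr fun u => exists_congr fun v => and_congr Iff.rfl ?_
    exact Conn.congr fun w hw => h2 w hw.1
  show crs o (col β) k (til (A ∪ B β)) a b d e ↔ crs o (col β') k (til (A ∪ B β')) a b d e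
  rw [h1]
  exact h3 _

open Classical in
private theorem VSA_core (shi : SHI_stmt) (shp : SHP_stmt) (inp : INP_stmt) (plg : PLG_stmt) (C0 : ℝ) (o k : Bool)
    (A Ω : Finset V) (B : (V → Bool) → Finset V) (hT : Two A Ω B) (a b d e a' b' d' e' : ℤ) (s t : ℕ)
    (hm : ∀ (c : V → Bool) (W : Set V) (i j : ℤ), 0 ≤ i → i ≤ s → 0 ≤ j → j ≤ s →
      crs o c k W (a + 2 * i) (b + 2 * i) (d + 2 * j) (e + 2 * j) → crs o c k W a' b' d' e')
    (hr : ∀ z ∈ rf a' b' d' e', ∀ i j : ℤ, 0 ≤ i → i ≤ s → 0 ≤ j → j ≤ s →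
      a - t ≤ z.1 - 2 * i ∧ z.1 - 2 * i ≤ b + t ∧ d - t ≤ z.2 - 2 * j ∧ z.2 - 2 * j ≤ e + t)
    (Z : (V → Bool) → Finset V) (hZ1 : ∀ β, Z β ⊆ rf a' b' d' e') (hZ2 : ∀ z, CD {β | z ∈ Z β} (rf a' b' d' e'))
    (hZ3 : ∀ (β : V → Bool) (S : Finset V), crs o (col β) k (til S) a' b' d' e' → ∃ z ∈ Z β, z ∈ S)
    (hZ4 : ∑ z ∈ rf a' b' d' e', Pr {β | z ∈ Z β} ≤ C0) :
    ((s : ℝ) + 1) ^ 2 * Pr {β | crs o (col β) k (til (A ∪ B β)) a b d e} ≤
      #(nr A a b d e t) * (C0 + (C0 + 1) * Real.log (#(rf a' b' d' e') + 3)) +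
        2 * C0 * ∑ v ∈ nr Ω a b d e t, Pr {β | v ∈ B β} := by
  obtain ⟨P, hP⟩ : ∃ P, P = Pr {β | crs o (col β) k (til (A ∪ B β)) a b d e} := ⟨_, rfl⟩
  obtain ⟨U, hU⟩ : ∃ U, U = rf a' b' d' e' := ⟨_, rfl⟩
  obtain ⟨W, hW⟩ : ∃ W, W = ∑ v ∈ nr Ω a b d e t, Pr {β | v ∈ B β} := ⟨_, rfl⟩
  obtain ⟨M, hM⟩ : ∃ M, M = #(nr A a b d e t) := ⟨_, rfl⟩
  obtain ⟨p, hp⟩ : ∃ p : V → ℝ, p = fun z => Pr {β | z ∈ Z β} := ⟨_, rfl⟩
  rw [← hP, ← hW, ← hM]
  rw [← hU] at hr hZ1 hZ2 hZ4 ⊢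
  have hpz : ∀ z, Pr {β | z ∈ Z β} = p z := fun z => by rw [hp]
  have hp0 : ∀ z, 0 ≤ p z := fun z => by rw [← hpz]; exact VSA_nonneg _
  have hZ4' : ∑ z ∈ U, p z ≤ C0 := by
    refine le_trans (le_of_eq (Finset.sum_congr rfl fun z _ => (hpz z).symm)) hZ4
  obtain ⟨g, hg⟩ : ∃ g : ℕ × ℕ → ℤ × ℤ, g = fun x => (2 * (x.1 : ℤ), 2 * (x.2 : ℤ)) := ⟨_, rfl⟩
  have hgi : Function.Injective g := by
    rintro ⟨x, y⟩ ⟨z, w⟩ h
    rw [hg] at h
    simp only [Prod.mk.injEq] at h ⊢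
    omega
  obtain ⟨T, hTd⟩ : ∃ T : Finset (ℤ × ℤ), T = (range (s + 1) ×ˢ range (s + 1)).image g := ⟨_, rfl⟩
  have hTc : #T = (s + 1) ^ 2 := by
    rw [hTd, Finset.card_image_of_injective _ hgi, Finset.card_product, Finset.card_range, sq]
  have hTm : ∀ τ ∈ T, ∃ i j : ℤ, 0 ≤ i ∧ i ≤ s ∧ 0 ≤ j ∧ j ≤ s ∧ τ = (2 * i, 2 * j) := by
    intro τ hτ
    rw [hTd] at hτ
    obtain ⟨⟨x, y⟩, hx, rfl⟩ := Finset.mem_image.1 hτ
    rw [Finset.mem_product, Finset.mem_range, Finset.mem_range] at hx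
    exact ⟨x, y, by omega, by omega, by omega, by omega, by rw [hg]⟩
  have hrange : ∀ z ∈ U, ∀ τ ∈ T, a - t ≤ (VSA_dv z τ).1 ∧ (VSA_dv z τ).1 ≤ b + t ∧ d - t ≤ (VSA_dv z τ).2 ∧
      (VSA_dv z τ).2 ≤ e + t := by
    intro z hz τ hτ
    obtain ⟨i, j, hi0, hi, hj0, hj, rfl⟩ := hTm τ hτ
    exact hr z hz i j hi0 hi hj0 hj
  have hnr : ∀ (S : Finset V) (v : V), v ∈ nr S a b d e t ↔ v ∈ S ∧ (a - t ≤ v.1 ∧ v.1 ≤ b + t ∧ d - t ≤ v.2 ∧ v.2 ≤ e + t) := by
    intro S v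
    unfold nr
    exact Finset.mem_filter
  have hcnt : ∀ z ∈ U, #{τ ∈ T | VSA_dv z τ ∈ A} ≤ M := by
    intro z hz
    rw [hM]
    refine Finset.card_le_card_of_injOn (VSA_dv z) ?_ ((VSA_dv_inj z).injOn)
    intro τ hτ
    obtain ⟨hτ1, hτ2⟩ := Finset.mem_filter.1 (Finset.mem_coe.1 hτ)
    exact Finset.mem_coe.2 ((hnr A _).2 ⟨hτ2, hrange z hz τ hτ1⟩)
  -- one translate
  have h1 : ∀ τ ∈ T, P ≤ ∑ z ∈ U, ((if VSA_dv z τ ∈ A then p z else 0) +
      Pr ({β | z ∈ Z β} ∩ {β | VSA_dv z τ ∈ B (VSA_sh τ β)})) := by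
    intro τ hτ
    have h2 := shp _ _ (VSA_CD o k A Ω B hT a b d e) τ.1 τ.2
    rw [hP, ← h2]
    refine (VSA_biUnion U (fun z => {β | z ∈ Z β ∧ VSA_dv z τ ∈ A ∪ B (VSA_sh τ β)}) _ ?_).trans ?_
    · intro β hβ
      obtain ⟨i, j, hi0, hi, hj0, hj, rfl⟩ := hTm τ hτ
      have h3 : crs o (col (VSA_sh (2 * i, 2 * j) β)) k (til (A ∪ B (VSA_sh (2 * i, 2 * j) β))) a b d e := hβ
      have h4 := (shi o k β (A ∪ B (VSA_sh (2 * i, 2 * j) β)) a b d e i j).1 h3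
      have h5 := hm _ _ i j hi0 hi hj0 hj h4
      obtain ⟨z, hz1, hz2⟩ := hZ3 β _ h5
      refine ⟨z, hZ1 β hz1, hz1, ?_⟩
      unfold shf at hz2
      obtain ⟨v, hv1, hv2⟩ := Finset.mem_image.1 hz2
      have h6 : VSA_dv z (2 * i, 2 * j) = v := by
        rw [← hv2]
        unfold VSA_dv
        ext
        · show v.1 + 2 * i - 2 * i = v.1
          ring
        · show v.2 + 2 * j - 2 * j = v.2
          ring
      rw [h6]
      exact hv1
    · refine Finset.sum_le_sum fun z hz => ?_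
      by_cases h3 : VSA_dv z τ ∈ A
      · rw [if_pos h3, ← hpz]
        refine le_trans (VSA_mono fun β hβ => ?_) (le_add_of_nonneg_right (VSA_nonneg _))
        exact hβ.1
      · rw [if_neg h3, zero_add]
        refine VSA_mono fun β hβ => ?_
        refine ⟨hβ.1, ?_⟩
        rcases Finset.mem_union.1 hβ.2 with h4 | h4
        · exact absurd h4 h3
        · exact h4
  have h2 : ((s : ℝ) + 1) ^ 2 * P ≤ ∑ τ ∈ T, ∑ z ∈ U, ((if VSA_dv z τ ∈ A then p z else 0) +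
      Pr ({β | z ∈ Z β} ∩ {β | VSA_dv z τ ∈ B (VSA_sh τ β)})) := by
    have h3 := Finset.sum_le_sum h1
    rw [Finset.sum_const, hTc, nsmul_eq_mul] at h3
    push_cast at h3
    exact h3
  rw [Finset.sum_comm] at h2
  have h3 : ∀ z ∈ U, ∑ τ ∈ T, ((if VSA_dv z τ ∈ A then p z else 0) +
      Pr ({β | z ∈ Z β} ∩ {β | VSA_dv z τ ∈ B (VSA_sh τ β)})) ≤
        M * p z + (M * (p z * Real.log (1 / p z)) + 2 * W * p z) := by
    intro z hz
    rw [Finset.sum_add_distrib]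
    refine add_le_add ?_ ?_
    · rw [← Finset.sum_filter, Finset.sum_const, nsmul_eq_mul]
      exact mul_le_mul_of_nonneg_right (by exact_mod_cast hcnt z hz) (hp0 z)
    · have h4 := inp (ℤ × ℤ) T {β | z ∈ Z β} (fun τ => {β | VSA_dv z τ ∈ B (VSA_sh τ β)}) U (fun τ => shf τ A) M
        (hZ2 z) ?_ ?_
      · have h5 : ∑ τ ∈ T, Pr {β | VSA_dv z τ ∈ B (VSA_sh τ β)} ≤ W := by
          have h6 : ∀ τ ∈ T, Pr {β | VSA_dv z τ ∈ B (VSA_sh τ β)} =
              (fun v => Pr {β | v ∈ B β}) (VSA_dv z τ) := by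
            intro τ _
            exact shp {β | VSA_dv z τ ∈ B β} A (fun β β' h => by
              show VSA_dv z τ ∈ B β ↔ VSA_dv z τ ∈ B β'
              rw [hT.2.2.2 β β' h]) τ.1 τ.2
          rw [Finset.sum_congr rfl h6, ← Finset.sum_image (f := fun v => Pr {β | v ∈ B β})
            (fun x _ y _ h => VSA_dv_inj z h)]
          have h7 : ∀ v ∈ T.image (VSA_dv z), Pr {β | v ∈ B β} = if v ∈ Ω then Pr {β | v ∈ B β} else 0 := by
            intro v _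
            by_cases h8 : v ∈ Ω
            · rw [if_pos h8]
            · rw [if_neg h8]
              have h9 : {β | v ∈ B β} = (∅ : Set (V → Bool)) := by
                ext β
                constructor
                · intro h10
                  exact h8 (hT.2.2.1 β h10)
                · intro h10
                  exact absurd h10 (Set.notMem_empty _)
              rw [h9]
              unfold Pr
              exact measureReal_empty
          rw [Finset.sum_congr rfl h7, ← Finset.sum_filter, hW]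
          refine Finset.sum_le_sum_of_subset_of_nonneg ?_ (fun v _ _ => VSA_nonneg _)
          intro v hv
          obtain ⟨hv1, hv2⟩ := Finset.mem_filter.1 hv
          obtain ⟨τ, hτ, rfl⟩ := Finset.mem_image.1 hv1
          exact (hnr Ω _).2 ⟨hv2, hrange z hz τ hτ⟩
        rw [hpz] at h4
        refine h4.trans ?_
        have h6 : 2 * p z * ∑ τ ∈ T, Pr {β | VSA_dv z τ ∈ B (VSA_sh τ β)} ≤ 2 * p z * W :=
          mul_le_mul_of_nonneg_left h5 (by have := hp0 z; linarith)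
        have h7 : p z * (M * Real.log (1 / p z)) = M * (p z * Real.log (1 / p z)) := by ring
        have h8 : 2 * p z * W = 2 * W * p z := by ring
        linarith
      · intro τ _ β β' h
        show VSA_dv z τ ∈ B (VSA_sh τ β) ↔ VSA_dv z τ ∈ B (VSA_sh τ β')
        rw [hT.2.2.2 (VSA_sh τ β) (VSA_sh τ β') ?_]
        intro v hv
        refine h (v.1 + τ.1, v.2 + τ.2) ?_
        unfold shf
        exact Finset.mem_image.2 ⟨v, hv, rfl⟩
      · intro v hv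
        refine le_trans (Finset.card_le_card ?_) (hcnt v hv)
        intro τ hτ
        obtain ⟨hτ1, hτ2⟩ := Finset.mem_filter.1 hτ
        refine Finset.mem_filter.2 ⟨hτ1, ?_⟩
        unfold shf at hτ2
        obtain ⟨w, hw1, hw2⟩ := Finset.mem_image.1 hτ2
        have h6 : VSA_dv v τ = w := by
          rw [← hw2]
          unfold VSA_dv
          ext
          · show w.1 + τ.1 - τ.1 = w.1
            ring
          · show w.2 + τ.2 - τ.2 = w.2
            ring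
        rw [h6]
        exact hw1
  have h4 := plg U p (fun z _ => hp0 z)
  have h5 : 0 ≤ Real.log ((#U : ℝ) + 3) := Real.log_nonneg (by
    have : (0 : ℝ) ≤ #U := Nat.cast_nonneg _
    linarith)
  have h6 : 0 ≤ W := by
    rw [hW]
    exact Finset.sum_nonneg fun v _ => VSA_nonneg _
  have h7 : (0 : ℝ) ≤ M := Nat.cast_nonneg _
  have h8 : (∑ z ∈ U, p z + 1) * Real.log (#U + 3) ≤ (C0 + 1) * Real.log (#U + 3) :=
    mul_le_mul_of_nonneg_right (by linarith) h5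
  calc ((s : ℝ) + 1) ^ 2 * P ≤ _ := h2
    _ ≤ ∑ z ∈ U, (M * p z + (M * (p z * Real.log (1 / p z)) + 2 * W * p z)) := Finset.sum_le_sum h3
    _ = M * ∑ z ∈ U, p z + (M * ∑ z ∈ U, p z * Real.log (1 / p z) + 2 * W * ∑ z ∈ U, p z) := by
        rw [Finset.sum_add_distrib, Finset.sum_add_distrib, ← Finset.mul_sum, ← Finset.mul_sum, ← Finset.mul_sum]
    _ ≤ M * C0 + (M * ((C0 + 1) * Real.log (#U + 3)) + 2 * W * C0) := by
        refine add_le_add (mul_le_mul_of_nonneg_left hZ4' h7) (add_le_add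
          (mul_le_mul_of_nonneg_left (h4.trans h8) h7) (mul_le_mul_of_nonneg_left hZ4' (by linarith)))
    _ = _ := by ring

/-- Small scales. -/
private theorem VSA_small (o k : Bool) (A Ω : Finset V) (B : (V → Bool) → Finset V) (hT : Two A Ω B)
    (a b d e : ℤ) (t : ℕ) (ht : 1 ≤ t) :
    Pr {β | crs o (col β) k (til (A ∪ B β)) a b d e} ≤
      #(nr A a b d e t) + ∑ v ∈ nr Ω a b d e t, Pr {β | v ∈ B β} := by
  have hnr : ∀ (S : Finset V) (v : V), v ∈ nr S a b d e t ↔ v ∈ S ∧ (a - t ≤ v.1 ∧ v.1 ≤ b + t ∧ d - t ≤ v.2 ∧ v.2 ≤ e + t) := by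
    intro S v
    unfold nr
    exact Finset.mem_filter
  have hin : ∀ β : V → Bool, crs o (col β) k (til (A ∪ B β)) a b d e →
      (∃ v, v ∈ nr A a b d e t) ∨ ∃ v ∈ nr Ω a b d e t, v ∈ B β := by
    intro β hβ
    obtain ⟨u, v, -, h2⟩ := hβ
    have h3 : u ∈ rect a b d e ∩ til (A ∪ B β) := h2.1.1
    have h4 : br u ∈ A ∪ B β := h3.2
    have h5 := h3.1
    have h6 : a ≤ u.1 ∧ u.1 ≤ b ∧ d ≤ u.2 ∧ u.2 ≤ e := h5
    have h7 := br_fst u
    have h8 := br_snd u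
    have h9 : a - t ≤ (br u).1 ∧ (br u).1 ≤ b + t ∧ d - t ≤ (br u).2 ∧ (br u).2 ≤ e + t := by omega
    rcases Finset.mem_union.1 h4 with h10 | h10
    · exact Or.inl ⟨br u, (hnr A _).2 ⟨h10, h9⟩⟩
    · exact Or.inr ⟨br u, (hnr Ω _).2 ⟨hT.2.2.1 β h10, h9⟩, h10⟩
  have hW : 0 ≤ ∑ v ∈ nr Ω a b d e t, Pr {β | v ∈ B β} := Finset.sum_nonneg fun v _ => VSA_nonneg _
  by_cases hA : ∃ v, v ∈ nr A a b d e t
  · have h1 : 1 ≤ #(nr A a b d e t) := Finset.card_pos.2 hA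
    have h2 : (1 : ℝ) ≤ #(nr A a b d e t) := by exact_mod_cast h1
    have h3 := VSA_le_one {β | crs o (col β) k (til (A ∪ B β)) a b d e}
    linarith
  · have h1 : Pr {β | crs o (col β) k (til (A ∪ B β)) a b d e} ≤ ∑ v ∈ nr Ω a b d e t, Pr {β | v ∈ B β} := by
      refine VSA_biUnion _ (fun v => {β | v ∈ B β}) _ ?_
      intro β hβ
      rcases hin β hβ with h | h
      · exact absurd h hA
      · exact h
    have h2 : (0 : ℝ) ≤ #(nr A a b d e t) := Nat.cast_nonneg _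
    linarith

private theorem VSA_logt (t : ℕ) (ht : 1 ≤ t) : 1 ≤ Real.log ((t : ℝ) + 2) := by
  have h1 : (1 : ℝ) ≤ t := by exact_mod_cast ht
  rw [Real.le_log_iff_exp_le (by linarith)]
  have := Real.exp_one_lt_d9
  linarith

private theorem VSA_smallfin (P n W L C lg : ℝ) (t : ℕ) (ht : 1 ≤ t) (hL : (t : ℝ) ≤ L) (hC : L ^ 2 ≤ C) (hn : 0 ≤ n)
    (hW : 0 ≤ W) (hlg : 1 ≤ lg) (h : P ≤ n + W) : P ≤ C * (n * lg + W) / (t : ℝ) ^ 2 := by
  have ht1 : (1 : ℝ) ≤ t := by exact_mod_cast ht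
  have ht0 : (0 : ℝ) < (t : ℝ) ^ 2 := by positivity
  rw [le_div_iff₀ ht0]
  have h1 : (t : ℝ) ^ 2 ≤ L ^ 2 := pow_le_pow_left₀ (by linarith) hL 2
  have h2 : n ≤ n * lg := le_mul_of_one_le_right hn hlg
  have h3 : 0 ≤ n * lg + W := by linarith
  calc P * (t : ℝ) ^ 2 ≤ (n * lg + W) * (t : ℝ) ^ 2 := mul_le_mul_of_nonneg_right (by linarith) ht0.le
    _ ≤ (n * lg + W) * C := mul_le_mul_of_nonneg_left (by linarith) h3
    _ = C * (n * lg + W) := by ring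

private theorem VSA_fin (P n W C0 lg lu C : ℝ) (s t : ℕ) (ht : 1 ≤ t) (hs : t ≤ 16 * (s + 1)) (hn : 0 ≤ n) (hW : 0 ≤ W)
    (hP : 0 ≤ P) (hC0 : 0 < C0) (hlg : 1 ≤ lg) (hlu : lu ≤ 5 * lg) (hC : 256 * (6 * C0 + 5) ≤ C)
    (h : ((s : ℝ) + 1) ^ 2 * P ≤ n * (C0 + (C0 + 1) * lu) + 2 * C0 * W) :
    P ≤ C * (n * lg + W) / (t : ℝ) ^ 2 := by
  have ht1 : (1 : ℝ) ≤ t := by exact_mod_cast ht
  have ht0 : (0 : ℝ) < (t : ℝ) ^ 2 := by positivity
  rw [le_div_iff₀ ht0]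
  have h1 : (t : ℝ) ≤ 16 * ((s : ℝ) + 1) := by exact_mod_cast hs
  have h2 : (t : ℝ) ^ 2 ≤ (16 * ((s : ℝ) + 1)) ^ 2 := pow_le_pow_left₀ (Nat.cast_nonneg _) h1 2
  have h3 : C0 + (C0 + 1) * lu ≤ (6 * C0 + 5) * lg := by
    have h4 : (C0 + 1) * lu ≤ (C0 + 1) * (5 * lg) := mul_le_mul_of_nonneg_left hlu (by linarith)
    have h5 : C0 ≤ C0 * lg := le_mul_of_one_le_right hC0.le hlg
    linarith
  have h4 : n * (C0 + (C0 + 1) * lu) ≤ n * ((6 * C0 + 5) * lg) := mul_le_mul_of_nonneg_left h3 hn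
  have h5 : 2 * C0 * W ≤ (6 * C0 + 5) * W := mul_le_mul_of_nonneg_right (by linarith) hW
  have h6 : 0 ≤ n * lg + W := by
    have := mul_nonneg hn (by linarith : (0 : ℝ) ≤ lg)
    linarith
  calc P * (t : ℝ) ^ 2 ≤ P * (16 * ((s : ℝ) + 1)) ^ 2 := mul_le_mul_of_nonneg_left h2 hP
    _ = 256 * (((s : ℝ) + 1) ^ 2 * P) := by ring
    _ ≤ 256 * ((6 * C0 + 5) * (n * lg + W)) := by linarith
    _ = 256 * (6 * C0 + 5) * (n * lg + W) := by ring
    _ ≤ C * (n * lg + W) := mul_le_mul_of_nonneg_right hC h6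

private theorem VSA_rf_card (a b d e : ℤ) (t : ℕ) (ht : 1 ≤ t)
    (h : (b + 1 - a).toNat * (e + 1 - d).toNat ≤ 24 * t ^ 2) :
    Real.log ((#(rf a b d e) : ℝ) + 3) ≤ 5 * Real.log ((t : ℝ) + 2) := by
  have h1 : #(rf a b d e) ≤ 24 * t ^ 2 := by
    unfold rf
    refine Finset.card_image_le.trans ?_
    rw [Finset.card_product, Int.card_Icc, Int.card_Icc]
    exact h
  have h2 : #(rf a b d e) + 3 ≤ (t + 2) ^ 5 := by
    have h3 : 27 ≤ (t + 2) ^ 3 := by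
      calc 27 = 3 ^ 3 := by norm_num
        _ ≤ (t + 2) ^ 3 := Nat.pow_le_pow_left (by omega) 3
    have h4 : t ^ 2 ≤ (t + 2) ^ 2 := Nat.pow_le_pow_left (by omega) 2
    have h5 : 1 ≤ t ^ 2 := Nat.one_le_pow _ _ (by omega)
    calc #(rf a b d e) + 3 ≤ 24 * t ^ 2 + 3 * t ^ 2 := by omega
      _ = 27 * t ^ 2 := by ring
      _ ≤ (t + 2) ^ 3 * (t + 2) ^ 2 := Nat.mul_le_mul h3 h4
      _ = (t + 2) ^ 5 := by rw [← pow_add]
  have h3 : ((#(rf a b d e) : ℝ) + 3) ≤ ((t : ℝ) + 2) ^ 5 := by exact_mod_cast h2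
  have h4 : (0 : ℝ) ≤ #(rf a b d e) := Nat.cast_nonneg _
  have h5 := Real.log_le_log (by linarith) h3
  rw [Real.log_pow] at h5
  exact_mod_cast h5

private theorem VSA_rf_mem {a b d e : ℤ} {z : V} (hz : z ∈ rf a b d e) :
    a - 1 ≤ z.1 ∧ z.1 ≤ b ∧ d ≤ z.2 ∧ z.2 ≤ e := by
  unfold rf at hz
  obtain ⟨v, hv, rfl⟩ := Finset.mem_image.1 hz
  rw [Finset.mem_product, Finset.mem_Icc, Finset.mem_Icc] at hv
  have h7 := br_fst v
  have h8 := br_snd v
  omega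

theorem VSA (mno : MNO_stmt) (shi : SHI_stmt) (shp : SHP_stmt) (zch : ZCH_stmt) (inp : INP_stmt) (plg : PLG_stmt) :
    VSA_stmt := by
  obtain ⟨C0, hC0, L, hL, hz⟩ := zch
  refine ⟨256 * (6 * C0 + 5) + (L : ℝ) ^ 2, by positivity, ?_⟩
  intro k A Ω B t a d ht hT
  have hlg := VSA_logt t ht
  have hLsq : (0 : ℝ) ≤ (L : ℝ) ^ 2 := sq_nonneg _
  by_cases htL : t < L
  · have htL' : (t : ℝ) ≤ (L : ℝ) := by exact_mod_cast htL.le
    unfold wgt
    constructor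
    · exact VSA_smallfin _ _ _ L _ _ t ht htL' (by nlinarith) (Nat.cast_nonneg _)
        (Finset.sum_nonneg fun v _ => VSA_nonneg _) hlg (VSA_small true k A Ω B hT _ _ _ _ t ht)
    · exact VSA_smallfin _ _ _ L _ _ t ht htL' (by nlinarith) (Nat.cast_nonneg _)
        (Finset.sum_nonneg fun v _ => VSA_nonneg _) hlg (VSA_small false k A Ω B hT _ _ _ _ t ht)
  have htL2 : L ≤ t := Nat.le_of_not_lt htL
  obtain ⟨s, hsd⟩ : ∃ s, s = t / 16 := ⟨_, rfl⟩
  have hs : 16 * s ≤ t := by rw [hsd]; exact Nat.mul_div_le t 16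
  have hs2 : t ≤ 16 * (s + 1) := by omega
  unfold wgt
  constructor
  · obtain ⟨Z, hZ1, hZ2, hZ3, hZ4⟩ := hz true k a (a + 6 * t + 2 * s) (d + 2 * s) (d + 2 * t) (by omega) (by omega)
      (fun _ => ⟨by omega, by omega⟩) (fun h => absurd h (by decide))
    refine VSA_fin _ _ _ C0 _ _ _ s t ht hs2 (Nat.cast_nonneg _) (Finset.sum_nonneg fun v _ => VSA_nonneg _)
      (VSA_nonneg _) hC0 hlg ?_ (by linarith)
      (VSA_core shi shp inp plg C0 true k A Ω B hT a (a + 6 * t) d (d + 2 * t) a (a + 6 * t + 2 * s) (d + 2 * s)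
        (d + 2 * t) s t ?_ ?_ Z hZ1 hZ2 hZ3 hZ4)
    · refine VSA_rf_card _ _ _ _ t ht ?_
      have h1 : (a + 6 * t + 2 * s + 1 - a).toNat ≤ 8 * t := by omega
      have h2 : (d + 2 * t + 1 - (d + 2 * s)).toNat ≤ 3 * t := by omega
      calc _ ≤ (8 * t) * (3 * t) := Nat.mul_le_mul h1 h2
        _ = 24 * t ^ 2 := by ring
    · intro c W i j hi0 hi hj0 hj h
      exact (mno c k W (a + 2 * i) (a + 6 * t + 2 * i) (d + 2 * j) (d + 2 * t + 2 * j)
        a (a + 6 * t + 2 * s) (d + 2 * s) (d + 2 * t)).1 (by omega) (by omega) (by omega) (by omega) (by omega) h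
    · intro z hz' i j hi0 hi hj0 hj
      have h1 := VSA_rf_mem hz'
      refine ⟨by omega, by omega, by omega, by omega⟩
  · obtain ⟨Z, hZ1, hZ2, hZ3, hZ4⟩ := hz false k (a + 2 * s) (a + 2 * t) d (d + 6 * t + 2 * s) (by omega) (by omega)
      (fun h => absurd h (by decide)) (fun _ => ⟨by omega, by omega⟩)
    refine VSA_fin _ _ _ C0 _ _ _ s t ht hs2 (Nat.cast_nonneg _) (Finset.sum_nonneg fun v _ => VSA_nonneg _)
      (VSA_nonneg _) hC0 hlg ?_ (by linarith)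
      (VSA_core shi shp inp plg C0 false k A Ω B hT a (a + 2 * t) d (d + 6 * t) (a + 2 * s) (a + 2 * t) d
        (d + 6 * t + 2 * s) s t ?_ ?_ Z hZ1 hZ2 hZ3 hZ4)
    · refine VSA_rf_card _ _ _ _ t ht ?_
      have h1 : (a + 2 * t + 1 - (a + 2 * s)).toNat ≤ 3 * t := by omega
      have h2 : (d + 6 * t + 2 * s + 1 - d).toNat ≤ 8 * t := by omega
      calc _ ≤ (3 * t) * (8 * t) := Nat.mul_le_mul h1 h2
        _ = 24 * t ^ 2 := by ring
    · intro c W i j hi0 hi hj0 hj h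
      exact (mno c k W (a + 2 * i) (a + 2 * t + 2 * i) (d + 2 * j) (d + 6 * t + 2 * j)
        (a + 2 * s) (a + 2 * t) d (d + 6 * t + 2 * s)).2 (by omega) (by omega) (by omega) (by omega) (by omega) h
    · intro z hz' i j hi0 hi hj0 hj
      have h1 := VSA_rf_mem hz'
      refine ⟨by omega, by omega, by omega, by omega⟩

end TP.TW
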