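import Pool.Agent.helper48.TH.Spec3

/-!
# Row tha:DRR, project TH (MP_f42afa_pr): from the entropy theorem on the cube to the lattice
-/

set_option autoImplicit false

namespace TP.TW

open DP MeasureTheory Finset

private theorem DRR_prob : IsProbabilityMeasure P1 := by
  unfold P1
  infer_instance

private theorem DRR_nonneg (F : Set (V → Bool)) : 0 ≤ Pr F := measureReal_nonneg

private theorem DRR_mono {F G : Set (V → Bool)} (h : F ⊆ G) : Pr F ≤ Pr G := by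
  have := DRR_prob
  exact measureReal_mono h

private theorem DRR_le_one (F : Set (V → Bool)) : Pr F ≤ 1 := by
  have := DRR_prob
  exact measureReal_le_one

/-- The shifted coins. -/
private def DRR_sh (τ : ℤ × ℤ) (β : V → Bool) : V → Bool := fun v => β (v.1 + τ.1, v.2 + τ.2)

/-- The translate. -/
private def DRR_tr (τ : ℤ × ℤ) (v : V) : V := (v.1 + τ.1, v.2 + τ.2)

/-- The difference. -/
private def DRR_dv (z : V) (τ : ℤ × ℤ) : V := (z.1 - τ.1, z.2 - τ.2)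

private theorem DRR_dv_tr (τ : ℤ × ℤ) (v : V) : DRR_dv (DRR_tr τ v) τ = v := by
  unfold DRR_dv DRR_tr
  ext
  · show v.1 + τ.1 - τ.1 = v.1
    ring
  · show v.2 + τ.2 - τ.2 = v.2
    ring

private theorem DRR_dv_inj (z : V) : Function.Injective (DRR_dv z) := by
  rintro ⟨x, y⟩ ⟨x', y'⟩ h
  have h1 := congrArg Prod.fst h
  have h2 := congrArg Prod.snd h
  simp only [DRR_dv] at h1 h2
  rw [Prod.mk.injEq]
  constructor <;> omega

private theorem DRR_mono_i {Ω : Finset V} {S : ℕ → (V → Bool) → Finset V} (hS : RV Ω S) {i i' : ℕ} (h : i ≤ i')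
    (β : V → Bool) : S i β ⊆ S i' β := by
  induction i', h using Nat.le_induction with
  | base => exact Finset.Subset.refl _
  | succ n _ ih => exact ih.trans (hS.2.2 n β).1

private theorem DRR_dep {Ω : Finset V} {S : ℕ → (V → Bool) → Finset V} (hS : RV Ω S) (i : ℕ) (β β' : V → Bool)
    (h : ∀ v ∈ Ω, β v = β' v) : S i β = S i β' := by
  cases i with
  | zero => rw [hS.2.1, hS.2.1]
  | succ i => exact ((hS.2.2 i β).2.2 β' fun v hv => (h v ((hS.2.2 i β).2.1 hv)).symm).symm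

private theorem DRR_self {Ω : Finset V} {S : ℕ → (V → Bool) → Finset V} (hS : RV Ω S) (i : ℕ) (β β' : V → Bool)
    (h : ∀ v ∈ S i β, β' v = β v) : S i β' = S i β := by
  cases i with
  | zero => rw [hS.2.1, hS.2.1]
  | succ i => exact (hS.2.2 i β).2.2 β' fun v hv => h v ((hS.2.2 i β).1 hv)

open Classical in
/-- Extension of a configuration. -/
private noncomputable def DRR_ext {m : ℕ} (ε : Fin m → V) (x : Fin m → Bool) (v : V) : Bool :=
  if h : ∃ u, ε u = v then x h.choose else false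

private theorem DRR_ext_eps {m : ℕ} {ε : Fin m → V} (hε : Function.Injective ε) (x : Fin m → Bool) (u : Fin m) :
    DRR_ext ε x (ε u) = x u := by
  have h : ∃ u', ε u' = ε u := ⟨u, rfl⟩
  unfold DRR_ext
  rw [dif_pos h, hε h.choose_spec]

open Classical in
/-- The probability of an event which depends on the coins in the range of `ε`. -/
private theorem DRR_pr (prn : PRN_stmt) {m : ℕ} {ε : Fin m → V} (hε : Function.Injective ε) {Ω' : Finset V}
    (hr : ∀ v ∈ Ω', ∃ u, ε u = v) (F : Set (V → Bool)) (hF : CD F Ω') :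
    Pr F = (#{x : Fin m → Bool | DRR_ext ε x ∈ F} : ℝ) / 2 ^ m := by
  rw [← prn m ε hε (fun x => DRR_ext ε x ∈ F)]
  refine congrArg Pr ?_
  ext β
  refine hF β _ fun v hv => ?_
  obtain ⟨u, rfl⟩ := hr v hv
  rw [DRR_ext_eps hε]

open Classical in
private theorem DRR_dec (prn : PRN_stmt) (shp : SHP_stmt) (j : ℕ) (K : ℝ) (hK : 0 < K)
    (ent : ∀ (m : ℕ) (κ : Type) (T : Finset κ) (S : κ → ℕ → EN.Om m → Finset (Fin m)) (Λ : Finset (Fin m)) (z : Fin m)
      (N : ℝ), (∀ τ ∈ T, EN.Rounds (S τ)) →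
      (∀ i : ℕ, ∀ v ∈ insert z Λ, ∑ τ ∈ T, (#{x : EN.Om m | v ∈ S τ i x} : ℝ) / 2 ^ m ≤ N) →
      ∀ (Q : EN.Om m → ℝ) (L : ℝ), EN.Law Q → (∀ x y : EN.Om m, (∀ u ∈ Λ, x u = y u) → Q x = Q y) → 0 ≤ L →
      (∀ x, Q x ≤ Real.exp L / 2 ^ m) →
      ∀ v ∈ insert z Λ, ∑ τ ∈ T, ∑ x with v ∈ S τ (j + 1) x, Q x ≤ K * N * (L + Real.log (#Λ + 3)) ^ j)
    (Ω : Finset V) (S : ℕ → (V → Bool) → Finset V) (hS : RV Ω S) :
    DEC (S (j + 1)) (fun v => Pr {β | v ∈ S (j + 1) β}) j K := by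
  intro T U Λ z E hE hU
  have hNn : 0 ≤ ∑ v ∈ U, Pr {β | v ∈ S (j + 1) β} := Finset.sum_nonneg fun v _ => DRR_nonneg _
  rcases (DRR_nonneg E).eq_or_lt with hE0 | hE0
  · rw [← hE0, mul_zero, zero_mul, zero_mul]
    refine Finset.sum_nonpos fun τ _ => ?_
    refine (DRR_mono Set.inter_subset_left).trans ?_
    rw [← hE0]
  obtain ⟨Ω', hΩ'⟩ : ∃ Ω' : Finset V, Ω' = insert z (Λ ∪ T.biUnion fun τ => Ω.image (DRR_tr τ)) := ⟨_, rfl⟩
  obtain ⟨m, ε, hε, hr⟩ : ∃ (m : ℕ) (ε : Fin m → V), Function.Injective ε ∧ ∀ v ∈ Ω', ∃ u, ε u = v := by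
    refine ⟨#Ω', fun u => ((Ω'.equivFin.symm u : Ω') : V), ?_, ?_⟩
    · intro u u' h
      exact Ω'.equivFin.symm.injective (Subtype.ext h)
    · intro v hv
      exact ⟨Ω'.equivFin ⟨v, hv⟩, by simp⟩
  have hzΩ : z ∈ Ω' := by
    rw [hΩ']
    exact Finset.mem_insert_self _ _
  have hΛΩ : ∀ v ∈ Λ, v ∈ Ω' := by
    intro v hv
    rw [hΩ']
    exact Finset.mem_insert_of_mem (Finset.mem_union_left _ hv)
  have hΩΩ : ∀ τ ∈ T, ∀ v ∈ Ω, DRR_tr τ v ∈ Ω' := by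
    intro τ hτ v hv
    rw [hΩ']
    exact Finset.mem_insert_of_mem (Finset.mem_union_right _
      (Finset.mem_biUnion.2 ⟨τ, hτ, Finset.mem_image.2 ⟨v, hv, rfl⟩⟩))
  -- the events
  have hCD : ∀ τ ∈ T, ∀ (i : ℕ) (v : V), CD {β | v ∈ S i (DRR_sh τ β)} Ω' := by
    intro τ hτ i v β β' h
    have h1 : S i (DRR_sh τ β) = S i (DRR_sh τ β') :=
      DRR_dep hS i _ _ fun u hu => h (DRR_tr τ u) (hΩΩ τ hτ u hu)
    show v ∈ S i (DRR_sh τ β) ↔ v ∈ S i (DRR_sh τ β')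
    rw [h1]
  have hCD0 : ∀ (i : ℕ) (v : V), CD {β | v ∈ S i β} Ω := by
    intro i v β β' h
    show v ∈ S i β ↔ v ∈ S i β'
    rw [DRR_dep hS i β β' h]
  have hshift : ∀ τ : ℤ × ℤ, ∀ (i : ℕ) (v : V), Pr {β | v ∈ S i (DRR_sh τ β)} = Pr {β | v ∈ S i β} := by
    intro τ i v
    exact shp {β | v ∈ S i β} Ω (hCD0 i v) τ.1 τ.2
  obtain ⟨S', hS'⟩ : ∃ S' : ℤ × ℤ → ℕ → EN.Om m → Finset (Fin m),
      S' = fun τ i x => univ.filter fun u => DRR_dv (ε u) τ ∈ S (min i (j + 1)) (DRR_sh τ (DRR_ext ε x)) := ⟨_, rfl⟩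
  have hS'm : ∀ (τ : ℤ × ℤ) (i : ℕ) (x : EN.Om m) (u : Fin m), u ∈ S' τ i x ↔
      DRR_dv (ε u) τ ∈ S (min i (j + 1)) (DRR_sh τ (DRR_ext ε x)) := by
    intro τ i x u
    rw [hS', Finset.mem_filter]
    exact and_iff_right (Finset.mem_univ _)
  have hRounds : ∀ τ ∈ T, EN.Rounds (S' τ) := by
    intro τ hτ
    refine ⟨?_, ?_⟩
    · intro x
      refine Finset.eq_empty_of_forall_notMem fun u hu => ?_
      rw [hS'm, Nat.zero_min, hS.2.1] at hu
      exact absurd hu (Finset.notMem_empty _)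
    · intro i x
      refine ⟨?_, ?_⟩
      · intro u hu
        rw [hS'm] at hu ⊢
        exact DRR_mono_i hS (by omega) _ hu
      · intro y hy
        have h1 : ∀ v ∈ S (min i (j + 1)) (DRR_sh τ (DRR_ext ε x)),
            DRR_sh τ (DRR_ext ε y) v = DRR_sh τ (DRR_ext ε x) v := by
          intro v hv
          have hvΩ : v ∈ Ω := (hS.2.2 _ _).2.1 hv
          obtain ⟨u, hu⟩ := hr _ (hΩΩ τ hτ v hvΩ)
          have h2 : y u = x u := by
            refine hy u ?_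
            rw [hS'm, hu, DRR_dv_tr]
            exact hv
          show DRR_ext ε y (DRR_tr τ v) = DRR_ext ε x (DRR_tr τ v)
          rw [← hu, DRR_ext_eps hε, DRR_ext_eps hε, h2]
        have h2 : S (min (i + 1) (j + 1)) (DRR_sh τ (DRR_ext ε y)) =
            S (min (i + 1) (j + 1)) (DRR_sh τ (DRR_ext ε x)) := by
          rcases Nat.lt_or_ge i (j + 1) with h3 | h3
          · rw [Nat.min_eq_left h3.le] at h1
            rw [Nat.min_eq_left (by omega)]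
            exact (hS.2.2 i _).2.2 _ h1
          · rw [Nat.min_eq_right h3] at h1
            rw [Nat.min_eq_right (by omega)]
            exact DRR_self hS _ _ _ h1
        ext u
        rw [hS'm, hS'm, h2]
  obtain ⟨z', hz'⟩ := hr z hzΩ
  obtain ⟨Λ', hΛ'⟩ : ∃ Λ' : Finset (Fin m), Λ' = univ.filter fun u => ε u ∈ Λ := ⟨_, rfl⟩
  have hΛ'm : ∀ u, u ∈ Λ' ↔ ε u ∈ Λ := by
    intro u
    rw [hΛ', Finset.mem_filter]
    exact and_iff_right (Finset.mem_univ _)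
  have hΛ'c : #Λ' ≤ #Λ := by
    refine Finset.card_le_card_of_injOn ε ?_ hε.injOn
    intro u hu
    exact Finset.mem_coe.2 ((hΛ'm u).1 (Finset.mem_coe.1 hu))
  have hins : ∀ u ∈ insert z' Λ', ε u ∈ insert z Λ := by
    intro u hu
    rcases Finset.mem_insert.1 hu with h | h
    · rw [h, hz']
      exact Finset.mem_insert_self _ _
    · exact Finset.mem_insert_of_mem ((hΛ'm u).1 h)
  have hN : ∀ i : ℕ, ∀ v ∈ insert z' Λ', ∑ τ ∈ T, (#{x : EN.Om m | v ∈ S' τ i x} : ℝ) / 2 ^ m ≤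
      ∑ u ∈ U, Pr {β | u ∈ S (j + 1) β} := by
    intro i v hv
    have hvU := hU (ε v) (hins v hv)
    have h1 : ∀ τ ∈ T, (#{x : EN.Om m | v ∈ S' τ i x} : ℝ) / 2 ^ m ≤
        (fun u => Pr {β | u ∈ S (j + 1) β}) (DRR_dv (ε v) τ) := by
      intro τ hτ
      obtain ⟨F, hF⟩ : ∃ F : Set (V → Bool), F = {β | DRR_dv (ε v) τ ∈ S (min i (j + 1)) (DRR_sh τ β)} := ⟨_, rfl⟩
      have hCF : CD F Ω' := by
        rw [hF]
        exact hCD τ hτ (min i (j + 1)) (DRR_dv (ε v) τ)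
      have h2 := DRR_pr prn hε hr F hCF
      have h3 : (#{x : EN.Om m | v ∈ S' τ i x} : ℝ) = (#{x : Fin m → Bool | DRR_ext ε x ∈ F} : ℝ) := by
        refine congrArg (fun n : ℕ => (n : ℝ)) (congrArg Finset.card (Finset.filter_congr fun x _ => ?_))
        rw [hF]
        exact hS'm τ i x v
      rw [h3, ← h2, hF, hshift]
      exact DRR_mono fun β hβ => DRR_mono_i hS (Nat.min_le_right _ _) β hβ
    refine (Finset.sum_le_sum h1).trans ?_
    rw [← Finset.sum_image (f := fun u => Pr {β | u ∈ S (j + 1) β}) (fun x _ y _ h => DRR_dv_inj (ε v) h)]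
    refine Finset.sum_le_sum_of_subset_of_nonneg ?_ fun u _ _ => DRR_nonneg _
    intro u hu
    obtain ⟨τ, hτ, rfl⟩ := Finset.mem_image.1 hu
    exact hvU τ hτ
  have hEΩ : CD E Ω' := fun β β' h => hE β β' fun v hv => h v (hΛΩ v hv)
  have hPE := DRR_pr prn hε hr E hEΩ
  obtain ⟨c, hc⟩ : ∃ c : ℝ, c = (#{x : Fin m → Bool | DRR_ext ε x ∈ E} : ℝ) := ⟨_, rfl⟩
  rw [← hc] at hPE
  have h2m : (0 : ℝ) < 2 ^ m := by positivity
  have hc2 : c = 2 ^ m * Pr E := by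
    rw [hPE]
    field_simp
  have hc0 : 0 < c := by
    rw [hc2]
    exact mul_pos h2m hE0
  obtain ⟨Q, hQ⟩ : ∃ Q : EN.Om m → ℝ, Q = fun x => if DRR_ext ε x ∈ E then 1 / c else 0 := ⟨_, rfl⟩
  have hQx : ∀ x, Q x = if DRR_ext ε x ∈ E then 1 / c else 0 := fun x => by rw [hQ]
  have hLaw : EN.Law Q := by
    refine ⟨fun x => ?_, ?_⟩
    · rw [hQx]
      split_ifs
      · positivity
      · exact le_rfl
    · rw [Finset.sum_congr rfl fun x _ => hQx x, ← Finset.sum_filter, Finset.sum_const, nsmul_eq_mul, ← hc]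
      field_simp
  have hQΛ : ∀ x y : EN.Om m, (∀ u ∈ Λ', x u = y u) → Q x = Q y := by
    intro x y h
    have h1 : DRR_ext ε x ∈ E ↔ DRR_ext ε y ∈ E := by
      refine hE _ _ fun v hv => ?_
      obtain ⟨u, hu⟩ := hr v (hΛΩ v hv)
      rw [← hu, DRR_ext_eps hε, DRR_ext_eps hε]
      exact h u ((hΛ'm u).2 (by rw [hu]; exact hv))
    rw [hQx, hQx]
    by_cases h2 : DRR_ext ε x ∈ E
    · rw [if_pos h2, if_pos (h1.1 h2)]
    · rw [if_neg h2, if_neg fun h3 => h2 (h1.2 h3)]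
  have hL0 : 0 ≤ Real.log (1 / Pr E) := Real.log_nonneg (by
    rw [le_div_iff₀ hE0, one_mul]
    exact DRR_le_one E)
  have hexp : Real.exp (Real.log (1 / Pr E)) = 1 / Pr E := Real.exp_log (by positivity)
  have hQle : ∀ x, Q x ≤ Real.exp (Real.log (1 / Pr E)) / 2 ^ m := by
    intro x
    rw [hexp, hQx]
    split_ifs
    · refine le_of_eq ?_
      rw [hc2]
      field_simp
    · positivity
  have hmain := ent m (ℤ × ℤ) T S' Λ' z' (∑ u ∈ U, Pr {β | u ∈ S (j + 1) β}) hRounds hN Q (Real.log (1 / Pr E)) hLaw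
    hQΛ hL0 hQle z' (Finset.mem_insert_self _ _)
  have hterm : ∀ τ ∈ T, Pr (E ∩ {β | ((z.1 - τ.1, z.2 - τ.2) : V) ∈ S (j + 1) (fun v => β (v.1 + τ.1, v.2 + τ.2))}) =
      Pr E * ∑ x with z' ∈ S' τ (j + 1) x, Q x := by
    intro τ hτ
    obtain ⟨F, hF⟩ : ∃ F : Set (V → Bool), F = E ∩ {β | DRR_dv z τ ∈ S (j + 1) (DRR_sh τ β)} := ⟨_, rfl⟩
    have h1 : CD F Ω' := by
      intro β β' h
      rw [hF]
      exact and_congr (hEΩ β β' h) (hCD τ hτ (j + 1) (DRR_dv z τ) β β' h)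
    have h2 := DRR_pr prn hε hr F h1
    have h3 : ∑ x with z' ∈ S' τ (j + 1) x, Q x = (#{x : Fin m → Bool | DRR_ext ε x ∈ F} : ℝ) * (1 / c) := by
      rw [Finset.sum_congr rfl fun x _ => hQx x, ← Finset.sum_filter, Finset.sum_const, nsmul_eq_mul, Finset.filter_filter]
      refine congrArg (fun n : ℕ => (n : ℝ) * (1 / c)) (congrArg Finset.card (Finset.filter_congr fun x _ => ?_))
      rw [hS'm, hz', Nat.min_self, hF]
      constructor
      · rintro ⟨h5, h6⟩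
        exact ⟨h6, h5⟩
      · rintro ⟨h6, h5⟩
        exact ⟨h5, h6⟩
    have h4 : Pr (E ∩ {β | ((z.1 - τ.1, z.2 - τ.2) : V) ∈ S (j + 1) (fun v => β (v.1 + τ.1, v.2 + τ.2))}) =
        Pr F := by
      rw [hF]
      rfl
    have hgen : ∀ y M q : ℝ, 0 < M → 0 < q → y / M = q * (y * (1 / (M * q))) := by
      intro y M q hM hq
      have h5 := ne_of_gt hM
      have h6 := ne_of_gt hq
      field_simp
    rw [h4, h2, h3, hc2]
    exact hgen _ _ _ h2m hE0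
  rw [Finset.sum_congr rfl hterm, ← Finset.mul_sum]
  have hlog : Real.log ((#Λ' : ℝ) + 3) ≤ Real.log ((#T : ℝ) + #Λ + 3) := by
    have h0 : (0 : ℝ) ≤ #Λ' := Nat.cast_nonneg _
    refine Real.log_le_log (by linarith) ?_
    have h1 : (#Λ' : ℝ) ≤ #Λ := by exact_mod_cast hΛ'c
    have h2 : (0 : ℝ) ≤ #T := Nat.cast_nonneg _
    linarith
  have hlog0 : 0 ≤ Real.log ((#Λ' : ℝ) + 3) := Real.log_nonneg (by
    have h2 : (0 : ℝ) ≤ #Λ' := Nat.cast_nonneg _
    linarith)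
  have hpow : (Real.log (1 / Pr E) + Real.log ((#Λ' : ℝ) + 3)) ^ j ≤
      (Real.log (1 / Pr E) + Real.log ((#T : ℝ) + #Λ + 3)) ^ j :=
    pow_le_pow_left₀ (by linarith) (by linarith) j
  calc Pr E * ∑ τ ∈ T, ∑ x with z' ∈ S' τ (j + 1) x, Q x
      ≤ Pr E * (K * (∑ u ∈ U, Pr {β | u ∈ S (j + 1) β}) * (Real.log (1 / Pr E) + Real.log ((#Λ' : ℝ) + 3)) ^ j) :=
        mul_le_mul_of_nonneg_left hmain hE0.le
    _ ≤ Pr E * (K * (∑ u ∈ U, Pr {β | u ∈ S (j + 1) β}) *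
          (Real.log (1 / Pr E) + Real.log ((#T : ℝ) + #Λ + 3)) ^ j) :=
        mul_le_mul_of_nonneg_left (mul_le_mul_of_nonneg_left hpow (mul_nonneg hK.le hNn)) hE0.le
    _ = _ := by ring

theorem DRR (h1 : EN.ENT_stmt) (h2 : PRN_stmt) (h3 : SHP_stmt) : DRR_stmt := by
  intro j
  obtain ⟨K, hK, hent⟩ := h1 j
  refine ⟨K, hK, ?_⟩
  intro Ω S hS
  refine ⟨hS.1, fun β => (hS.2.2 _ β).2.1, ⟨Ω, fun β β' h => DRR_dep hS _ β β' h⟩, fun v => DRR_nonneg _, ?_, hK.le,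
    DRR_dec h2 h3 j K hK hent Ω S hS⟩
  intro v hv
  have h4 : {β | v ∈ S (j + 1) β} = (∅ : Set (V → Bool)) := by
    ext β
    constructor
    · intro h
      exact absurd ((hS.2.2 _ β).2.1 h) hv
    · intro h
      exact absurd h (Set.notMem_empty _)
  show Pr {β | v ∈ S (j + 1) β} = 0
  rw [h4]
  unfold Pr
  exact measureReal_empty

end TP.TW
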